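import Mathlib

namespace Pool.Agent.Results.MP_b125a4_nt.Full

open Finset Polynomial

/-- congruence of rational functions: `A - B = U / V` with `P ∣ U` and `V` coprime to `P` -/
def qcong (P : ℚ[X]) (A B : RatFunc ℚ) : Prop :=
  ∃ U V : ℚ[X], P ∣ U ∧ IsCoprime V P ∧ V ≠ 0 ∧
    A - B = algebraMap ℚ[X] (RatFunc ℚ) U / algebraMap ℚ[X] (RatFunc ℚ) V

/-- the indeterminate -/
noncomputable def q : RatFunc ℚ := RatFunc.X

/-- the `q`-integer `[m] = (1 - q^m) / (1 - q)` -/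
noncomputable def qint (m : ℤ) : RatFunc ℚ := (1 - q ^ m) / (1 - q)

/-- the shifted factorial `(a; b)_k` -/
noncomputable def qpoch (a b : RatFunc ℚ) (k : ℕ) : RatFunc ℚ := ∏ i ∈ range k, (1 - a * b ^ i)

theorem q_eq : q = algebraMap ℚ[X] (RatFunc ℚ) X := RatFunc.algebraMap_X.symm

theorem q_ne : q ≠ 0 := RatFunc.X_ne_zero

theorem one_sub_ne (k : ℕ) (hk : k ≠ 0) : 1 - q ^ k ≠ 0 := by
  have : (1 : RatFunc ℚ) - q ^ k = algebraMap ℚ[X] (RatFunc ℚ) (1 - X ^ k) := by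
    rw [q_eq]; simp
  rw [this]
  refine RatFunc.algebraMap_ne_zero fun h => ?_
  have := congrArg (eval 0) h
  simp [hk] at this

theorem dvd_of_qcong {P : ℤ[X]} (hP : P.Monic) {A B : RatFunc ℚ}
    (h : qcong (P.map (Int.castRingHom ℚ)) A B) (N D : ℤ[X])
    (e : (A - B) * aeval q D = aeval q N) (z : ℤ) : P.eval z ∣ N.eval z := by
  obtain ⟨U, V, hU, hV, hV0, h⟩ := h
  have key : ∀ F : ℤ[X], aeval q F = algebraMap ℚ[X] (RatFunc ℚ) (F.map (Int.castRingHom ℚ)) := by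
    intro F
    induction F using Polynomial.induction_on' with
    | add a b ha hb => simp [ha, hb]
    | monomial n c => simp [q_eq, ← C_mul_X_pow_eq_monomial]
  have hV1 : algebraMap ℚ[X] (RatFunc ℚ) V ≠ 0 := RatFunc.algebraMap_ne_zero hV0
  rw [h, key, key, div_mul_eq_mul_div, div_eq_iff hV1, ← map_mul, ← map_mul] at e
  have e2 := RatFunc.algebraMap_injective ℚ e
  have h1 : P.map (Int.castRingHom ℚ) ∣ N.map (Int.castRingHom ℚ) * V := by
    rw [← e2]; exact hU.mul_right _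
  have h2 := hV.symm.dvd_of_dvd_mul_right h1
  exact eval_dvd ((map_dvd_map _ (Int.castRingHom ℚ).injective_int hP).1 h2)

/-- the sum `S_n(q)` -/
noncomputable def S (n : ℕ) : RatFunc ℚ :=
  ∑ k ∈ range ((n - 1) / 2 + 1), qint (4 * k + 1) * (qpoch q (q ^ 2) k / qpoch (q ^ 2) (q ^ 2) k) ^ 3 *
    q ^ ((k : ℤ) * ((n : ℤ) ^ 2 - 2 * n * k - n - 2) / 4)

theorem cy : (cyclotomic 1 ℚ) ^ 2 = ((X - C 1 : ℤ[X]) ^ 2).map (Int.castRingHom ℚ) := by
  simp [cyclotomic_one]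

theorem result : ¬ ∀ n : ℕ, 1 ≤ n → n % 4 = 1 → qcong ((cyclotomic n ℚ) ^ 2) (S n) 0 := by
  intro h
  have h1 := h 1 le_rfl rfl
  rw [cy] at h1
  have h2 : 1 - q ≠ 0 := by simpa using one_sub_ne 1 one_ne_zero
  have := dvd_of_qcong ((monic_X_sub_C (1 : ℤ)).pow 2) h1 1 1 (by simp [S, qint, qpoch, h2]) 1
  simp at this

end Pool.Agent.Results.MP_b125a4_nt.Full
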